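import Mathlib
import Pool.Agent.V1199.CodeP2

open Set Filter Topology

namespace Pool.Agent.Results.MP_146262_an.DD2PGdelta

open Pool.Agent.V1199.CodeP

/-- The class of the diametral diameter two property in `𝒫_∞`. -/
def classDD2P : Set Pinf :=
  {μ : Pinf | ∃ (X : Type) (_ : NormedAddCommGroup X) (_ : NormedSpace ℝ X) (ι : V →+ X),
    IsModel μ.1 X ι ∧ DD2P X}

/-- The class of the spaces with the DD2P is `G_δ` in `𝒫_∞`. Membership does not depend on the
realisation of `X_μ`, and a realisation exists for every `μ`. -/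
theorem result : IsGδ classDD2P ∧
    (∀ μ : Pinf, ∃ (X : Type) (_ : NormedAddCommGroup X) (_ : NormedSpace ℝ X) (ι : V →+ X),
      IsModel μ.1 X ι) ∧
    ∀ (μ : Pinf) (X : Type) [NormedAddCommGroup X] [NormedSpace ℝ X] (ι : V →+ X),
      IsModel μ.1 X ι → (μ ∈ classDD2P ↔ DD2P X) := by
  have key : ∀ (μ : Pinf) (X : Type) [NormedAddCommGroup X] [NormedSpace ℝ X] (ι : V →+ X),
      IsModel μ.1 X ι → (μ ∈ classDD2P ↔ DD2P X) := by
    intro μ X _ _ ι hι
    constructor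
    · rintro ⟨Y, i1, i2, κ, hκ, hY⟩
      exact (dd2p_iff hι).mpr ((@dd2p_iff μ.1 Y i1 i2 κ hκ).mp hY)
    · intro hX
      exact ⟨X, _, _, ι, hι, hX⟩
  refine ⟨?_, fun μ => exists_model μ.1 μ.2.1, key⟩
  have h1 : classDD2P = Subtype.val ⁻¹'
      {μ : V → ℝ | ∀ (n k m : ℕ) (x : V), ¬ (μ x < 1 ∧ μ ∈ badDD n k m x)} := by
    ext μ
    obtain ⟨X, i1, i2, ι, hι⟩ := exists_model μ.1 μ.2.1
    rw [key μ X ι hι, dd2p_iff hι]
    rfl
  rw [h1]
  exact (gdelta_of_bad isClosed_badDD).preimage continuous_subtype_val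

end Pool.Agent.Results.MP_146262_an.DD2PGdelta
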